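import Pool.Agent.X312.CQ.Var

/-!
# A gap law for the crystalline variational Tate conjecture

Let `k` be a perfect field of characteristic `p`, let `𝒴 → S` be **any** smooth proper morphism of
smooth `k`-varieties and `s` a closed point of `S`. Let `X` be a smooth projective variety over
`k` such that homological and numerical equivalence agree on its powers for crystalline cohomology
(for example a product of elliptic curves over a finite field). We consider the morphisms `𝒴 × X ^
n → S`. Let `M = (X ^ m, e)` be a direct summand of the motive of `X ^ m` modulo homological
equivalence (with coefficients in `K`) which is irreducible, and let `D = dim H(M)` be its rank.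
Let `ρ(Z)` be the dimension of the space of the algebraic classes on `Z` and `b` the sum of the
Betti numbers of `X`.

**Either for all flat cycle classes** `x` **on** `𝒴_s × X ^ m` **the class** `e x` **is a
combination of the restrictions of cycle classes on** `𝒴 × X ^ m`, **or for all** `n ≥ 1` **at
least**

`(D - 4 (m + 3) b ^ (m + 5) log (n + 1) / n) ρ(X ^ n)`

**flat cycle classes on** `𝒴_s × X ^ n` **are linearly independent modulo the restrictions of the
cycle classes on** `𝒴 × X ^ n`. So if one flat cycle class on `𝒴_s × X ^ m` is not a combination,
with coefficients in `K`, of restrictions of cycle classes, then the conjecture Q1 is false for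
all morphisms `𝒴 × X ^ n → S`, `n` large, in a very strong way.

Correspondences between the powers of `X` given by cycles act on `𝒴 × X ^ n` over `S`: they
respect flat classes, cycle classes of the fibre, and restrictions of cycle classes of the total
space.

The proof. Let `P = X ^ m` and let `z = e z` be a nonzero element of the space generated by the
flat cycle classes modulo the space generated by the restrictions for `P`. If a correspondence `x`
has `x z = 0` then `e x e` is not invertible on `M`, so it is nilpotent, as `M` is irreducible,
and the trace of `e x` vanishes; therefore the dimension of this quotient for `Z` is at least the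
rank of the trace form `(u, v) ↦ tr (e v u)` on the correspondences between `P` and `Z`. For `Z =
X ^ n` this rank is at least `(D - ε) ρ(X ^ n)`, by the log-convexity of the sequence of the
numbers `ρ(X ^ (2 l))`, by tensor powers, and by the symmetric group, which excludes small growth.
For the other parity `M` is cut out of `X ^ (m + 1)`. Finally, the dimension of a quotient of two
spaces generated by given sets is the largest number of elements of the first set which are
independent modulo the second.
-/

set_option autoImplicit false

open CategoryTheory AlgebraicGeometry

universe u v w

namespace Pool.Agent.Results.MP_6e4974_ag.GapLaw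

open Pool.Agent.H914 VarClass Obj WeilCohomology
open Pool.Agent.X312.FK (composite IrreducibleIn IndepMod)
open Pool.Agent.X312.FC (CorrData corrRank rankBound)
open Pool.Agent.X312.FM (Family Has IsRingFamily IsNondeg dimOn)
open Pool.Agent.X312.CQ (VariationData)
open Pool.Agent.Y133.Half (pw)

variable {k : Type u} [Field k] {𝒱 : VarClass k} {ops : CycleOps 𝒱}
  {W : WeilCohomology.{u, v} ops}

/-- The sum of the Betti numbers of `X`. -/
noncomputable def totalBetti (W : WeilCohomology.{u, v} ops) (X : 𝒱.Obj) : ℕ :=
  Module.finrank W.K (W.H X)

/-- **The gap law for deformations.** In the intended use `C Z` is the space of the algebraic classes on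
`Z`, `T.M Z` is the crystalline cohomology of `𝒴_s × Z`, `S.cyc Z` is the set of the classes of cycles,
`S.flat Z` is the set of the flat classes, `S.res Z` is the set of the restrictions of the classes of the
cycles on `𝒴 × Z`, `S.corr Z Z'` is the set of the classes of the cycles on `Z × Z'`, and `e` is the
projector of the motive `M`. Here `corrRank e` is the rank of the motive, `dimOn C Z` is the dimension
of `C Z`, and `pw X m` is the product of `m + 1` copies of `X`. -/
theorem result (C : Family W) (hC : IsRingFamily C) (T : CorrData W) (hT : T.IsFunctor C)
    (S : VariationData T) (hS : S.IsCompatible C) (X : 𝒱.Obj)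
    (hX : ∀ n, IsNondeg C (pw X n)) (m : ℕ) (e : W.H ((pw X m).prod (pw X m)))
    (he : Has C e) (hee : composite W e e = e) (hirr : IrreducibleIn (Has C) e) :
    (∀ x : T.M (pw X m), x ∈ S.cyc (pw X m) → x ∈ S.flat (pw X m) →
      T.act e x ∈ Submodule.span W.K (S.res (pw X m))) ∨
    ∀ n : ℕ, IndepMod (S.cyc (pw X n) ∩ S.flat (pw X n))
      (Submodule.span W.K (S.res (pw X n)))
      (rankBound (corrRank e) (totalBetti W X) (dimOn C (pw X n)) m n) :=
  Pool.Agent.X312.CQ.variation_law hC hT S hS X hX he hee hirr

end Pool.Agent.Results.MP_6e4974_ag.GapLaw
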